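import Pool.Agent.Helper12.TE.B
import Pool.Agent.Helper38.FI.FIC
import Pool.Agent.Helper56.C75.SEP

/-!
MP_c75db0, Plan W: THE TAIL OF THE RUNS OF A ROTATION WITH DISC MATRICES: the instance of the item
tests of a cell (kinds `0` - `5` given, kinds `6`, `7` here) and a piece of the window from the tests
of a cell.
-/

set_option autoImplicit false
noncomputable section
namespace Pool.Agent.Helper12.TE

open Matrix
open Pool.Agent.Helper90.KMO (UU UU_pos cz)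
open Pool.Agent.Helper90.KMT (PT)
open Pool.Agent.Helper86.C75 (Z)
open Pool.Agent.Helper86.CX (Cx andB)
open Pool.Agent.Helper86.CT (N3 Alg Mo KM nx A4)
open Pool.Agent.Helper17.K9 (V9)
open Pool.Agent.Helper17.N9 (Kf Te KfM)
open Pool.Agent.Helper90.C9 (tfY)
open Pool.Agent.Helper62.NBD (BP GB)
open Pool.Agent.Helper62.NBW (nth nth_t)
open Pool.Agent.Helper62.NBX (P_67)
open Pool.Agent.Helper26.XH (FH hL hR hH)
open Pool.Agent.Helper26.IT (condB Pd_k)
open Pool.Agent.Helper26.SF (Sf sfOK sfM sf_pos)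
open Pool.Agent.Helper51.FR (andB_t' RTK)
open Pool.Agent.Helper82.TST (Fr frA frB frK frN frR frS)
open Pool.Agent.Helper82.FRD (frOK)
open Pool.Agent.Helper91.BX (PcG)
open Pool.Agent.Helper91.TM
open Pool.Agent.Helper91.TMK
open Pool.Agent.Helper91.TMK.IT (nA)
open Pool.Agent.Helper91.TMK.TST
open Pool.Agent.Helper91.TMK.SW
open Pool.Agent.Helper91.TMK.NBW
open Pool.Agent.Helper91.TMK.NBX
open Pool.Agent.Helper91.TMK.ITF (TOK_sf')
open Pool.Agent.Helper6.MONO (V3 fB)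
open Pool.Agent.Helper6.MONO.W2 (Mt NT IN rfJ rfd nX nMd Sy sDm phi sat sati Pd cs sc sc_cs nW SPC
  chR ptF_k)
open Pool.Agent.Helper6.MONO.W2.TY (r4T)
open Pool.Agent.Helper21.SW (Mu cK sc_mod sc_div2 T4 lf4 SE)
open Pool.Agent.Helper21.TC

variable {α κ γ : Type}

/-! ### kernel side -/

/-- kinds 6 and 7 -/
def gKD (A : Alg α) (T : TK α κ γ) (D : TD α κ γ) (F : FH α) (K : LC α) (bp : List BP) (k n : Nat)
    (k1 k2 : κ) (Sl Sr : V9 α) (gs : List γ) : Bool :=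
  cond (Nat.beq k (nat_lit 6)) (nth gs (fun g => bxK A T F K n k1 k2 Sl Sr g) (nat_lit 0))
    (btD A T D F K bp n k1 k2 Sl Sr gs)
/-- the items of the kinds 0 - 5 -/
abbrev KA (α κ γ : Type) : Type := Cel κ → Nat → Nat → Nat → Nat → V9 α → V9 α → γ → Bool
/-- the invariance items of the kinds 0 - 5 -/
abbrev KB (κ : Type) : Type := Cel κ → Nat → Nat → Nat → Nat → Mu × Sf → Bool
/-- **ONE ITEM, ALL KINDS**; a run of length `1` (`P = 14`) may also be tested as a rotation -/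
def itGX (M : Mn α) (T : TK α κ γ) (D : TD α κ γ) (a : KA α κ γ) (C : Cel κ) (d : GB α)
    (c P i j : Nat) (Sl Sr : V9 α) (gs : List γ) : Bool :=
  cond (Nat.ble (nat_lit 6) (Nat.mod P (nat_lit 8)))
    (andB (isG C.D.gb c) (cond (andB (Nat.beq P (nat_lit 14))
        (nth gs (fun g => a C c (nat_lit 0) i j Sl Sr g) (nat_lit 0))) true
      (gKD M.A T D (C.H M) (glM M C d (Nat.beq (Nat.mod c (nat_lit 2))
        (nat_lit 1))) d.bp (Nat.mod P (nat_lit 8)) (Nat.div P (nat_lit 8)) (C.fo i) (C.fo j) Sl Sr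
        gs)))
    (nth gs (fun g => a C c P i j Sl Sr g) (nat_lit 0))
/-- **ONE INVARIANCE ITEM, ALL KINDS**; a run of length `1` may also be tested as a rotation -/
def itJX (M : Mn α) (T : TK α κ γ) (b : KB κ) (C : Cel κ) (d : GB α) (c P i f : Nat)
    (m : Mu × Sf) : Bool :=
  cond (Nat.ble (nat_lit 6) (Nat.mod P (nat_lit 8)))
    (cond (andB (Nat.beq P (nat_lit 14)) (b C c (nat_lit 0) i f m)) true
      (itGJ M T C d c P i f m))
    (b C c P i f m)
/-- THE INSTANCE -/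
def itX (M : Mn α) (T : TK α κ γ) (D : TD α κ γ) (a : KA α κ γ) (b : KB κ) (d : GB α) :
    IT α κ (List γ) (Mu × Sf) :=
  ⟨fun C c P i j Sl Sr gs => itGX M T D a C d c P i j Sl Sr gs,
    fun C c P i f m => itJX M T b C d c P i f m⟩
/-- the kinds 0 - 5 of the machine `M` -/
def aKX (M : Mn α) (T : TK α κ γ) : KA α κ γ := fun C c P i j Sl Sr g => aK M T C c P i j Sl Sr g
def aIX (M : Mn α) (T : TK α κ γ) : KB κ := fun C c P i f m => aI M T C c P i f m

/-! ### laws -/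

/-- THE LAW of the items of the kinds 0 - 5 -/
def ALW (lf : Mch α) (KV : κ → (ℕ → ℝ) → Mt) (M : Mn α) (a : KA α κ γ) : Prop :=
  ∀ {C : Cel κ} {q r : ℕ} {x : ℝ} {t : ℕ → ℝ} {bc : ℕ → ℕ → Prop} {c P i j : ℕ} {Sl Sr : V9 α}
    {g : γ} {S S' : Mt}, PtC lf M C q r x t → a C c P i j Sl Sr g = true →
    TV 3 lf t (hL (vX C q r x) (wX C q r x) S) Sl →
    TV 3 lf t (hR (vX C q r x) (wX C q r x) S') Sr →
    sat (RTK C.tb (nW (phi C.D.p) (vX C q r x)) bc) (phi C.D.p) (vX C q r x) (wX C q r x) (cs c)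
      (Pd P) (cK (vX C q r x) (KV (C.fo i) t)) (cK (vX C q r x) (KV (C.fo j) t)) S S'
/-- THE LAW of the invariance items of the kinds 0 - 5 -/
def BLW (lf : Mch α) (KV : κ → (ℕ → ℝ) → Mt) (M : Mn α) (b : KB κ) : Prop :=
  ∀ {C : Cel κ} {q r : ℕ} {x : ℝ} {t : ℕ → ℝ} {bc : ℕ → ℕ → Prop} {c P i f : ℕ} {m : Mu × Sf},
    PtC lf M C q r x t → b C c P i f m = true →
    sati (RTK C.tb (nW (phi C.D.p) (vX C q r x)) bc) (phi C.D.p) (vX C q r x) (cs c)
      (Pd P) (cK (vX C q r x) (KV (C.fo i) t)) (cK (vX C q r x) (KV (C.fo f) t))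

theorem ALW_K {lf : Mch α} {M : Mn α} (hM : MnL lf M) {T : TK α κ γ} {KV : κ → (ℕ → ℝ) → Mt}
    (hT : TKL lf (nM 3 lf) KV T) : ALW lf KV M (aKX M T) :=
  fun hC h hl hr => aK_ok hM hT hC h hl hr

theorem BLW_K {lf : Mch α} {M : Mn α} (hM : MnL lf M) {T : TK α κ γ} {KV : κ → (ℕ → ℝ) → Mt}
    (hT : TKL lf (nM 3 lf) KV T) : BLW lf KV M (aIX M T) :=
  fun hC h => aI_ok hM hT hC h

section

variable {lf : Mch α} {M : Mn α} {C : Cel κ} {q r : ℕ} {x : ℝ} {t : ℕ → ℝ} {d : GB α}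

/-- **THE LAWS OF THE ITEMS, ALL KINDS** -/
theorem itl_X (hM : MnL lf M) {T : TK α κ γ} {KV : κ → (ℕ → ℝ) → Mt}
    (hT : TKL lf (nM 3 lf) KV T) {D : TD α κ γ} (hD : TDL (nM 3 lf) KV D) {a : KA α κ γ}
    (ha : ALW lf KV M a) {b : KB κ} (hb' : BLW lf KV M b) (hC : PtC lf M C q r x t)
    (hdc : lf.vl d.nd.c) (hds : lf.vl d.nd.s) (hb : C.D.gb = true → gbB M C d = true) :
    ∃ bc : ℕ → ℕ → Prop,
      (C.D.gb = true → ∀ n, C.D.nB < n → ∃ i < C.D.NB, bc i n) ∧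
      ITL lf KV (itX M T D a b d) C q r x t (RTK C.tb (nW (phi C.D.p) (vX C q r x)) bc) := by
  have hA := hM.a3
  obtain ⟨htt, hx1, two, tan, _, _⟩ := ptF_k hC.hp hC.hpq hC.hqr hC.hr4 hC.hxA hC.hx2
  obtain ⟨h, hG⟩ : ∃ h : ℝ, C.D.gb = true →
      GPt lf C.D.p (vX C q r x) (wX C q r x) t (glM M C d) h ∧
      ∀ n, C.D.nB < n → ∃ i < C.D.NB, bcT h d.bp i n := by
    by_cases hg : C.D.gb = true
    · obtain ⟨h, H⟩ := gb_pt hM hC hdc hds hg (hb hg)
      exact ⟨h, fun _ => H⟩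
    · exact ⟨0, fun h => absurd h hg⟩
  refine ⟨bcT h d.bp, fun hg => (hG hg).2, ⟨?_, ?_⟩⟩
  · intro c P i j Sl Sr gs S S' hk hl hr
    rcases condB hk with ⟨h6, h7⟩ | h7
    · obtain ⟨g, rfl⟩ : ∃ g : Sy, c = sc g := ⟨cs c, (sc_cs c).symm⟩
      have ecs : cs (sc g) = g := Pool.Agent.Helper6.MONO.W2.TY.cs_sc g
      obtain ⟨g1, g2⟩ := andB_t' h7
      rcases condB g2 with ⟨z1, _⟩ | g2
      · obtain ⟨z2, z3⟩ := andB_t' z1
        have z4 : P = 14 := Nat.eq_of_beq_eq_true z2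
        obtain ⟨y, _, z5⟩ := nth_t z3
        have z6 := ha (bc := bcT h d.bp) hC z5 hl hr
        rw [z4]
        exact z6
      obtain ⟨g3, g4⟩ := andB_t' (show andB C.D.gb (Nat.beq (Nat.div (sc g) (nat_lit 2))
        (nat_lit 2)) = true from g1)
      have e2 : g.2 = 2 := by
        have k : Nat.div (sc g) 2 = 2 := Nat.eq_of_beq_eq_true g4
        rwa [sc_div2] at k
      obtain ⟨μ, th, hd, P', N, Pd', Nd, m1, m2, m3, m4⟩ := (hG g3).1.sp g.1
      have hh := (hG g3).1.h1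
      rw [sc_mod] at g2
      replace m3 : SPC (rfJ 1 (vX C q r x) * sDm (phi C.D.p) g.1 g.2)
          (rfd 1 0 (vX C q r x) (wX C q r x) * sDm (phi C.D.p) g.1 g.2) μ (-star μ ^ 2) th
          (-2 * th) h hd P' N Pd' Nd := by
        rw [e2]
        exact m3
      rcases P_67 h6 with e | e
      · have ee : Nat.beq (Nat.mod P (nat_lit 8)) (nat_lit 6) = true := by
          show Nat.beq (P % 8) 6 = true
          rw [e]
          rfl
        unfold gKD at g2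
        rw [ee] at g2
        rw [ecs, Pd_k, e]
        obtain ⟨y, _, g5⟩ := nth_t (show nth gs (fun g' => bxK M.A T (C.H M) (glM M C d g.1)
          (Nat.div P (nat_lit 8)) (C.fo i) (C.fo j) Sl Sr g') (nat_lit 0) = true from g2)
        exact bxK_ok hA hT hC.hP two tan hC.H m3 m2 m4 hl hr g5
      · have ee : Nat.beq (Nat.mod P (nat_lit 8)) (nat_lit 6) = false := by
          show Nat.beq (P % 8) 6 = false
          rw [e]
          rfl
        unfold gKD at g2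
        rw [ee] at g2
        rw [ecs, Pd_k, e]
        intro n hn
        exact btD_ok hM.n hT hD hC.hP two tan hC.H m3 m2 hh m1 m4 hl hr (show btD M.A T D (C.H M)
          (glM M C d g.1) d.bp (Nat.div P (nat_lit 8)) (C.fo i) (C.fo j) Sl Sr gs = true from g2)
          hn
    · obtain ⟨y, _, g5⟩ := nth_t h7
      exact ha hC g5 hl hr
  · intro c P i f m hk
    rcases condB hk with ⟨h6, h7⟩ | h7
    · rcases condB h7 with ⟨z1, _⟩ | h7
      · obtain ⟨z2, z3⟩ := andB_t' z1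
        have z4 : P = 14 := Nat.eq_of_beq_eq_true z2
        have z6 := hb' (bc := bcT h d.bp) hC z3
        rw [z4]
        exact z6
      unfold itGJ at h7
      rw [h6] at h7
      obtain ⟨g, rfl⟩ : ∃ g : Sy, c = sc g := ⟨cs c, (sc_cs c).symm⟩
      have ecs : cs (sc g) = g := Pool.Agent.Helper6.MONO.W2.TY.cs_sc g
      obtain ⟨g1, g2⟩ := andB_t' (show andB (isG C.D.gb (sc g)) (gJ M T C (glM M C d (Nat.beq
        (Nat.mod (sc g) (nat_lit 2)) (nat_lit 1))) d.bp (Nat.mod P (nat_lit 8))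
        (Nat.div P (nat_lit 8)) i f m) = true from h7)
      obtain ⟨g3, g4⟩ := andB_t' (show andB C.D.gb (Nat.beq (Nat.div (sc g) (nat_lit 2))
        (nat_lit 2)) = true from g1)
      have e2 : g.2 = 2 := by
        have k : Nat.div (sc g) 2 = 2 := Nat.eq_of_beq_eq_true g4
        rwa [sc_div2] at k
      obtain ⟨μ, th, hd, P', N, Pd', Nd, m1, m2, m3, m4⟩ := (hG g3).1.sp g.1
      have hh := (hG g3).1.h1
      rw [sc_mod] at g2
      replace m3 : SPC (rfJ 1 (vX C q r x) * sDm (phi C.D.p) g.1 g.2)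
          (rfd 1 0 (vX C q r x) (wX C q r x) * sDm (phi C.D.p) g.1 g.2) μ (-star μ ^ 2) th
          (-2 * th) h hd P' N Pd' Nd := by
        rw [e2]
        exact m3
      obtain ⟨hfr, g2⟩ := andB_t' g2
      obtain ⟨hsf, g2⟩ := andB_t' g2
      have r0 := sf_pos hsf hC.hP le_rfl
      have hS := TOK_sf' hA hC.hP le_rfl hM.qd m.2
      have hKf : HK 3 lf t ((frR (C.fq i))ᴴ * KV (C.fo i) t * frR (C.fq i))
          (frK M.A (C.fq i) (T.km (C.fo i))) :=
        (hT.km (k := C.fo i) hC.hP).g9 hA hC.hP (TV_frA hA hC.hP _)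
      have hKg : HK 3 lf t ((frR (C.fq f))ᴴ * KV (C.fo f) t * frR (C.fq f))
          (frK M.A (C.fq f) (T.km (C.fo f))) :=
        (hT.km (k := C.fo f) hC.hP).g9 hA hC.hP (TV_frA hA hC.hP _)
      have hI := TLI_mk hA hC.hP hC.H.hc m4
      rcases P_67 h6 with e | e
      · have ee : Nat.beq (Nat.mod P (nat_lit 8)) (nat_lit 6) = true := by
          show Nat.beq (P % 8) 6 = true
          rw [e]
          rfl
        unfold gI at g2
        rw [ee] at g2
        rw [ecs, Pd_k, e]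
        exact bxI_ok hA (g3V_ok hM) hC.hP two m3 m2 m4 hI hfr hKf hKg r0 hS (show bxI M.A (g3V M)
          (glM M C d g.1) (liM M.A (C.H M).c (glM M C d g.1)) (Nat.div P (nat_lit 8)) (C.fq i)
          (C.fq f) m.1 (sfM M.A M.qd m.2) (frK M.A (C.fq i) (T.km (C.fo i)))
          (frK M.A (C.fq f) (T.km (C.fo f))) = true from g2)
      · have ee : Nat.beq (Nat.mod P (nat_lit 8)) (nat_lit 6) = false := by
          show Nat.beq (P % 8) 6 = false
          rw [e]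
          rfl
        unfold gI at g2
        rw [ee] at g2
        rw [ecs, Pd_k, e]
        intro n hn
        exact btI_ok hM.n (g4V_ok hM) hC.hP two m3 m2 hh m4 hI hfr hKf hKg r0 hS (show btI M.A
          (g4V M) (glM M C d g.1) (liM M.A (C.H M).c (glM M C d g.1)) d.bp
          (Nat.div P (nat_lit 8)) (C.fq i) (C.fq f) m.1 (sfM M.A M.qd m.2)
          (frK M.A (C.fq i) (T.km (C.fo i))) (frK M.A (C.fq f) (T.km (C.fo f))) = true from g2) hn
    · exact hb' hC h7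

end

/-! ### a cell -/

/-- the basic test -/
def TrE : Kf → Kf → Te → V9 Q4 → V9 Q4 → V9 Q4 → V9 Q4 → Bool :=
  fun k1 k2 g M X E F => tBkE Pool.Agent.Helper17.N9.Mn4 tfY M X E F k1 k2 g

theorem TrE_ok : DFL KV TrE :=
  fun {_ _ _ _ _ _ _ t _ _ _ _ _ _} h hP hM hX hE hF e1 e2 =>
    tBkE_ok Pool.Agent.Helper17.N9.Mn4_ok Pool.Agent.Helper17.N9.DlL_4 (le_refl 4)
      Pool.Agent.Helper17.N9.cz_lC4 hP (fun G => Pool.Agent.Helper17.N9.ndw_k 3 t G) hM hX hE hF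
      e1 e2 h

/-- THE TEST WITH DISC MATRICES for the Taylor machine -/
def TrD : TD TP Kf Te := tdV MT A4 TrE

theorem TrD_ok : TDL (nM 3 lfT) KV TrD :=
  tdV_ok MT_ok.V4 Pool.Agent.Helper21.SW.a4 TrE_ok

section

variable {γ : Type}

/-- THE ITEM TESTS, the kinds 0 - 5 given -/
def itTX (T : Pool.Agent.Helper21.SW.TK Kf γ) (D : TD TP Kf γ) (a : KA TP Kf γ) (b : KB Kf)
    (C : Cel Kf) (g : GN) : IT TP Kf (List γ) (Mu × Sf) :=
  itX MT (TT T) D a b (dT C g)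
/-- **THE TESTS OF A CELL**, the kinds 0 - 5 given -/
structure CelX (T : Pool.Agent.Helper21.SW.TK Kf γ) (D : TD TP Kf γ) (a : KA TP Kf γ) (b : KB Kf)
    (C : Cel Kf) (g : GN) (ms : List (List Mu)) (E : SE) : Prop where
  ck : Pool.Agent.Helper12.NKT.ck C.D = true
  ce : ceK MT C = true
  le : leA MT C = true
  gb : gbT C g = true
  it : ItsA MT (itTX T D a b C g) C C.D.it
  i1 : IvsA (itTX T D a b C g) C C.D.i1
  ic : Pool.Agent.Helper38.FI.incK C ms = true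
  se : seK MT G3 (TT T) C E = true

/-- **A PIECE OF THE WINDOW FROM THE TESTS OF A CELL** -/
theorem CelX.pc {T : Pool.Agent.Helper21.SW.TK Kf γ} (hT : Pool.Agent.Helper21.SW.TKL KV T)
    {D : TD TP Kf γ} (hD : TDL (nM 3 lfT) KV D) {a : KA TP Kf γ} (ha : ALW lfT KV MT a)
    {b : KB Kf} (hb : BLW lfT KV MT b) {C : Cel Kf}
    {g : GN} {ms : List (List Mu)} {E : SE} (h : CelX T D a b C g ms E)
    (h4 : r4T C.D.p C.B.A0 C.B.ra C.B.S0 C.B.rs = true) {Q : ℕ → ℕ → ℝ → Prop} {m : ℝ}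
    (hQ : ∀ q r x, Q q r x → C.D.gb = true → 0 ≤ fB C.D.p q r x) :
    PcG Q C.D.p m C.B.A0 C.B.A1 C.B.ra C.B.S0 C.B.S1 C.B.rs C.S C.B.W0 C.S C.B.W1 := by
  have hg : C.D.gb = true → gbB MT C (dT C g) = true := by
    intro e
    have k := h.gb
    unfold gbT at k
    rw [e] at k
    exact k
  have h7 : C.D.gb = true → 4 ≤ C.D.p := fun e => by
    have k : 7 ≤ C.D.p := Nat.le_of_ble_eq_true (Pool.Agent.Helper90.KMO.andB_t (hg e)).1
    omega
  have hI : CelK MT (itTX T D a b C g) C := ⟨h.ck, h.ce, h.le, h.it, h.i1⟩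
  have hL : CelL lfT KV MT (itTX T D a b C g) C E.U (Pool.Agent.Helper82.TST.uv E.y)
      Pool.Agent.Helper51.FR.cbd := {
    gb := h7
    it := fun hC => itl_X MT_ok (TT_ok hT) hD ha hb hC (dT_vl hC g).1 (dT_vl hC g).2 hg
    ic := fun hC => Pool.Agent.Helper38.FI.incK_ok hC.hP hC.two h.ic
    se := fun hC => hC.sf MT_ok (TT_ok hT) (g3V_ok MT_ok) h.se
    ind := seK_ind h.se }
  exact hI.pc MT_ok hL h4 hQ

/-! ### the Taylor machine for all kinds -/

/-- THE ITEM TESTS -/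
def itTD (T : Pool.Agent.Helper21.SW.TK Kf γ) (D : TD TP Kf γ) (C : Cel Kf) (g : GN) :
    IT TP Kf (List γ) (Mu × Sf) := itTX T D (aKX MT (TT T)) (aIX MT (TT T)) C g
/-- **THE TESTS OF A CELL** (fields `ck ce le gb it i1 ic se`) -/
abbrev CelD (T : Pool.Agent.Helper21.SW.TK Kf γ) (D : TD TP Kf γ) (C : Cel Kf) (g : GN)
    (ms : List (List Mu)) (E : SE) : Prop :=
  CelX T D (aKX MT (TT T)) (aIX MT (TT T)) C g ms E

/-- **A PIECE OF THE WINDOW FROM THE TESTS OF A CELL** -/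
theorem CelD_pc {T : Pool.Agent.Helper21.SW.TK Kf γ} (hT : Pool.Agent.Helper21.SW.TKL KV T)
    {D : TD TP Kf γ} (hD : TDL (nM 3 lfT) KV D) {C : Cel Kf}
    {g : GN} {ms : List (List Mu)} {E : SE} (h : CelD T D C g ms E)
    (h4 : r4T C.D.p C.B.A0 C.B.ra C.B.S0 C.B.rs = true) {Q : ℕ → ℕ → ℝ → Prop} {m : ℝ}
    (hQ : ∀ q r x, Q q r x → C.D.gb = true → 0 ≤ fB C.D.p q r x) :
    PcG Q C.D.p m C.B.A0 C.B.A1 C.B.ra C.B.S0 C.B.S1 C.B.rs C.S C.B.W0 C.S C.B.W1 :=
  CelX.pc hT hD (ALW_K MT_ok (TT_ok hT)) (BLW_K MT_ok (TT_ok hT)) h h4 hQ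

end

end Pool.Agent.Helper12.TE
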