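import Pool.Agent.Helper17.N9.N9Y

/-!
Row K9 of MP_c75db0 (plan W), version 2: THE TEST OF A BLOCK WITH TWO DISC MATRICES. The second
matrix of the block is `X + d1 E + d2 F` with unknown complex numbers `d1`, `d2` of modulus at most
`1`; `E` and `F` are transformed to the frames of the test and their bounds are added to the radii
of the rows.
-/

set_option autoImplicit false
set_option exponentiation.threshold 60000
noncomputable section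
namespace Pool.Agent.Helper12.TE

open Pool.Agent.Helper17.N9
open Pool.Agent.Helper86.C75 (Z)
open Pool.Agent.Helper86.CX (Cx andB)
open Pool.Agent.Helper86.CT (N3 Mo)
open Pool.Agent.Helper90.C75 (Vt avg wtT avg_sub avg_smul)
open Pool.Agent.Helper90.KMO (zv cz UU)
open Pool.Agent.Helper90.KMT (TOK PT DL NN)
open Pool.Agent.Helper90.K9 (G pk pz)
open Pool.Agent.Helper90.C9 (tfY RdC)
open Pool.Agent.Helper17.K9 (V9)
open Pool.Agent.Helper62.TVM (TV)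
open Pool.Agent.Helper6.MONO (V3)
open Pool.Agent.Helper6.MONO.W2 (Mt hr hv J1 NT)
open Finset Matrix

/-! ### kernel side -/

/-- a row with two discs -/
def rwE (x e f : Rw) : Rw :=
  ⟨x.B, Nat.add x.r (Nat.add (Nat.add e.B e.r) (Nat.add f.B f.r)), x.l⟩
def w9E (A E F : W9) : W9 :=
  ⟨rwE A.a E.a F.a, rwE A.b E.b F.b, rwE A.c E.c F.c, rwE A.d E.d F.d, rwE A.e E.e F.e,
   rwE A.f E.f F.f, rwE A.g E.g F.g, rwE A.h E.h F.h, rwE A.i E.i F.i⟩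

section
variable {ν ζ κ : Type}

/-- `p0`, `l`: moduli of the controls of the block, `q0`, `m`: of the disc matrices -/
def t2E (T : Tl ν ζ κ) (d : Nat) (lt : Nat → Nat → Bool) (S : Sc) (kA kB : κ) (x y : ν)
    (rM rX rE rF : M9) (p0 : Nat) (l : List Nat) (q0 : Nat) (m : List Nat) : Bool :=
  t3 T d lt S kA kB x y (mkWM d p0 l rM)
    (w9E (mkWX d p0 l rX) (mkWM d q0 m rE) (mkWX d q0 m rF))
/-- `w`: controls of the combined tree of the disc matrices -/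
def twE (T : Tl ν ζ κ) (d : Nat) (lt : Nat → Nat → Bool) (S : Sc) (kA kB : κ) (x y : ν)
    (rM rX rE rF : M9) (p0 : Nat) (l : List Nat) (w : ν) : Bool :=
  t2E T d lt S kA kB x y rM rX rE rF p0 l (pmo (absd HZ LZ (T.ld w) (Nat.shiftLeft OQ2 d)))
    (pmL (T.dl HZ LZ w))
/-- `z`: controls of the combined tree of the block -/
def tzE (T : Tl ν ζ κ) (d : Nat) (lt : Nat → Nat → Bool) (S : Sc) (kA kB : κ) (x y : ν)
    (rM rX rE rF : M9) (z w : ν) : Bool :=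
  twE T d lt S kA kB x y rM rX rE rF (pmo (absd HZ LZ (T.ld z) (Nat.shiftLeft OQ2 d)))
    (pmL (T.dl HZ LZ z)) w
def tyE (T : Tl ν ζ κ) (d : Nat) (lt : Nat → Nat → Bool) (S : Sc) (kA kB : κ) (x y e f : ν)
    (rM rX rE rF : M9) : Bool :=
  tzE T d lt S kA kB x y rM rX rE rF (T.cn (T.zc x y)) (T.cn (T.zc e f))

end

section
variable {α ν μ ζ : Type}

def t1E (X : Mn α ν μ ζ) (lt : Nat → Nat → Bool) (M A E F : NV μ) (t : Te) (BW BU : Bs)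
    (mW mU : M9) (C : TC) (kA kB : Tr (Tr (Tr Nat))) : Bool :=
  andB (andB (okE mU mW t.cs) (andB (r52 Lc1 kA) (r52 Lc3 kB)))
    (tyE X.T X.d lt (mkSc t.pq t.cs (fmJ Lc1 BU) (fmJ Lc3 BW)) kA kB
      (X.Q.q (q2 C) M.v) (X.Q.q (q2 C) A.v) (X.Q.q (q2 C) E.v) (X.Q.q (q2 C) F.v)
      (rW mW (rU (toM M.r) mU)) (rW mW (rU (toM A.r) mU)) (rW mW (rU (toM E.r) mU))
      (rW mW (rU (toM F.r) mU)))
def t0E (X : Mn α ν μ ζ) (lt : Nat → Nat → Bool) (M A E F : NV μ) (k1 k2 : Kf) (t : Te)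
    (BW BU : Bs) (mW mU : M9) (C : TC) : Bool :=
  t1E X lt M A E F t BW BU mW mU C (kNd (kE Lc1 BU) k1) (kNd (kE Lc3 BW) k2)
def tAE (X : Mn α ν μ ζ) (lt : Nat → Nat → Bool) (M A E F : NV μ) (k1 k2 : Kf) (t : Te)
    (fu : Nat) (W U : Fr) : Bool :=
  t0E X lt M A E F k1 k2 t (bsW Lc3 W) (bsU Lc1 U) (mkMa t.fr) (mkMa fu) (mkTC W U)
/-- THE TEST with two disc matrices -/
def tBE (X : Mn α ν μ ζ) (lt : Nat → Nat → Bool) (M A E F : NV μ) (k1 k2 : Kf) (t : Te) : Bool :=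
  andB (andB (andB M.ok A.ok) (andB E.ok F.ok)) (andB (okT t (Nat.shiftRight t.fr (nat_lit 360)))
    (tAE X lt M A E F k1 k2 t (Nat.shiftRight t.fr (nat_lit 360)) (frW t.fr)
      (frU (Nat.shiftRight t.fr (nat_lit 360)))))
/-- models -/
def tBkE (X : Mn α ν μ ζ) (lt : Nat → Nat → Bool) (M A E F : V9 α) (k1 k2 : Kf) (t : Te) : Bool :=
  andB (Nat.ble (u8 t.cs (nat_lit 32)) (nat_lit 20))
    (tBE X lt (mkNV X (u8 t.cs (nat_lit 32)) M) (mkNV X (u8 t.cs (nat_lit 32)) A)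
      (mkNV X (u8 t.cs (nat_lit 32)) E) (mkNV X (u8 t.cs (nat_lit 32)) F) k1 k2 t)

end

/-! ### rows -/

theorem w9E_at (A E F : W9) (K : ℕ) (hK : K < 9) :
    (w9E A E F).at K = rwE (A.at K) (E.at K) (F.at K) := by
  interval_cases K <;> rfl

/-- bound of the exact value of a row -/
theorem RwL_val {D : ℕ} {t : ℕ → ℝ} (hP : PT D t) {g : Vt D → ℂ} {m : ℂ} {x : Rw}
    (h : RwL D t g m x) : 2 ^ D * ‖m‖ ≤ (x.B : ℝ) + x.r := by
  have lx : (rlD x.l).length = D := by rw [rlD, List.length_map]; exact h.len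
  have b1 := (nd_bd hP h.dl (NN_rlD _) lx).trans h.bd
  have b2 := h.er
  have e : m = avg (ndw D t) g + (m - avg (ndw D t) g) := by ring
  have h1 : ‖m‖ ≤ ‖avg (ndw D t) g‖ + ‖m - avg (ndw D t) g‖ := by
    conv_lhs => rw [e]
    exact norm_add_le _ _
  have hp : (0 : ℝ) ≤ 2 ^ D := by positivity
  have h2 := mul_le_mul_of_nonneg_left h1 hp
  rw [mul_add] at h2
  linarith

theorem RwL_E {D : ℕ} {t : ℕ → ℝ} (hP : PT D t) {g ge gf : Vt D → ℂ} {m me mf d1 d2 : ℂ}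
    {x e f : Rw} (h : RwL D t g m x) (hE : RwL D t ge me e) (hF : RwL D t gf mf f)
    (h1 : ‖d1‖ ≤ 1) (h2 : ‖d2‖ ≤ 1) : RwL D t g (m + d1 * me + d2 * mf) (rwE x e f) where
  dl := h.dl
  len := h.len
  bd := h.bd
  er := by
    have a := h.er
    have b1 := RwL_val hP hE
    have b2 := RwL_val hP hF
    have e0 : m + d1 * me + d2 * mf - avg (ndw D t) g =
      (m - avg (ndw D t) g) + (d1 * me + d2 * mf) := by ring
    have n1 : ‖d1 * me‖ ≤ ‖me‖ := by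
      rw [norm_mul]
      nlinarith [norm_nonneg me]
    have n2 : ‖d2 * mf‖ ≤ ‖mf‖ := by
      rw [norm_mul]
      nlinarith [norm_nonneg mf]
    have n3 : ‖m + d1 * me + d2 * mf - avg (ndw D t) g‖ ≤
        ‖m - avg (ndw D t) g‖ + (‖me‖ + ‖mf‖) := by
      rw [e0]
      refine (norm_add_le _ _).trans (add_le_add le_rfl ?_)
      exact (norm_add_le _ _).trans (add_le_add n1 n2)
    have hp : (0 : ℝ) ≤ 2 ^ D := by positivity
    have n4 := mul_le_mul_of_nonneg_left n3 hp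
    rw [mul_add, mul_add] at n4
    show _ ≤ (((x.r + ((e.B + e.r) + (f.B + f.r)) : ℕ)) : ℝ)
    push_cast
    linarith

theorem mwu_E (W U A E F : Mt) (c d1 d2 : ℂ) (K : ℕ) :
    mwu W U (c • (A + d1 • E + d2 • F)) K =
      mwu W U (c • A) K + d1 * mwu W U (c • E) K + d2 * mwu W U (c • F) K := by
  rw [mwu_eq, mwu_eq, mwu_eq, mwu_eq, mul_sum, mul_sum, ← sum_add_distrib, ← sum_add_distrib]
  refine sum_congr rfl fun k _ => ?_
  have e : ∀ i j, en (c • (A + d1 • E + d2 • F)) i j =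
      en (c • A) i j + d1 * en (c • E) i j + d2 * en (c • F) i j := by
    intro i j
    unfold en
    simp only [Matrix.smul_apply, Matrix.add_apply, smul_eq_mul]
    ring
  rw [e]
  ring

/-! ### THE TEST -/

/-- the test on the trees; `M`, `A`: blocks at the nodes, `E`, `F`: disc matrices -/
theorem tBE_ok {α ν μ ζ : Type} {D : ℕ} {lC : α → Vt D → Cx} {lv : ν → Vt D → ℕ}
    {lz : ζ → Vt D → Z} {lm : μ → Vt D → NL} {rr : Vt D → Vt 3} {X : Mn α ν μ ζ}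
    (H : MnL D lC lv lz lm rr X) (HD : DlL D lv X.T) (hD : D ≤ 4) {t : ℕ → ℝ} (hP : PT D t)
    (hrr : ∀ G : Vt 3 → ℂ, avg (ndw D t) (fun u => G (rr u)) = avg (ndw 3 t) G) {k : ℕ}
    {M A E F : Mt} {VM VA' VE VF : NV μ} (hM : NVL D lm t k M VM) (hA : NVL D lm t k A VA')
    (hE : NVL D lm t k E VE) (hF : NVL D lm t k F VF) {d1 d2 : ℂ} (hd1 : ‖d1‖ ≤ 1)
    (hd2 : ‖d2‖ ≤ 1) {k1 k2 : Kf}
    {te : Te} (h : tBE X tfY VM VA' VE VF k1 k2 te = true) :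
    NT (KfM k1 t) (KfM k2 t) (A + d1 • E + d2 • F) M := by
  have h' : andB (andB (andB VM.ok VA'.ok) (andB VE.ok VF.ok))
    (andB (okT te (Nat.shiftRight te.fr 360))
    (tAE X tfY VM VA' VE VF k1 k2 te (Nat.shiftRight te.fr 360) (frW te.fr)
      (frU (Nat.shiftRight te.fr 360)))) = true := h
  obtain ⟨h1, h2⟩ := andB2 h'
  obtain ⟨h1a, h1b⟩ := andB2 h1
  obtain ⟨okM, okA⟩ := andB2 h1a
  obtain ⟨okE', okF'⟩ := andB2 h1b
  obtain ⟨h3, h4⟩ := andB2 h2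
  generalize hfu : Nat.shiftRight te.fr 360 = fu at h3 h4
  have h3' : andB (psd3 te.pq) (andB (psd3 (Nat.shiftRight te.pq 144))
    (andB (nz (det te.fr)) (nz (det fu)))) = true := h3
  obtain ⟨s1, h5⟩ := andB2 h3'
  obtain ⟨s2, h6⟩ := andB2 h5
  obtain ⟨s3, s4⟩ := andB2 h6
  clear h h' h1 h1a h1b h2 h3 h3' h5 h6
  set kA := kNd (kE Lc1 (bsU Lc1 (frU fu))) k1 with hkA
  set kB := kNd (kE Lc3 (bsW Lc3 (frW te.fr))) k2 with hkB
  set C := mkTC (frW te.fr) (frU fu) with hC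
  have h7 : andB (andB (okE (mkMa fu) (mkMa te.fr) te.cs) (andB (r52 Lc1 kA) (r52 Lc3 kB)))
    (tyE X.T X.d tfY (mkSc te.pq te.cs (fmJ Lc1 (bsU Lc1 (frU fu))) (fmJ Lc3 (bsW Lc3 (frW te.fr))))
      kA kB (X.Q.q (q2 C) VM.v) (X.Q.q (q2 C) VA'.v) (X.Q.q (q2 C) VE.v) (X.Q.q (q2 C) VF.v)
      (rW (mkMa te.fr) (rU (toM VM.r) (mkMa fu)))
      (rW (mkMa te.fr) (rU (toM VA'.r) (mkMa fu)))
      (rW (mkMa te.fr) (rU (toM VE.r) (mkMa fu)))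
      (rW (mkMa te.fr) (rU (toM VF.r) (mkMa fu)))) = true := h4
  clear h4
  rw [H.d] at h7
  obtain ⟨h8, h9⟩ := andB2 h7
  obtain ⟨oE, h10⟩ := andB2 h8
  obtain ⟨rA, rB⟩ := andB2 h10
  clear h7 h8 h10
  have oE' : andB (Nat.ble (u8 te.cs 0) 54) (andB (Nat.ble (u8 te.cs 8) 54)
    (andB (okX (sm9 (mkMa te.fr)) (17 + u8 te.cs 16)) (okX (sm9 (mkMa fu)) (17 + u8 te.cs 24)))) =
    true := oE
  obtain ⟨e0, h11⟩ := andB2 oE'
  obtain ⟨e8, h12⟩ := andB2 h11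
  obtain ⟨e16, e24⟩ := andB2 h12
  clear oE oE' h11 h12
  -- the blocks at the nodes
  obtain ⟨nM, lM, bM⟩ := hM.ex okM
  obtain ⟨nX, lX, bX⟩ := hA.ex okA
  obtain ⟨nE, lE, bE⟩ := hE.ex okE'
  obtain ⟨nF, lF, bF⟩ := hF.ex okF'
  have FW := frW_ok te.fr
  have FU := frU_ok fu
  have iW := AI_bd te.fr
  have iU := AI_bd fu
  choose QM qM1 qM2 qM3 using fun u => q2_ok FW FU iW iU (lM u)
  choose QX qX1 qX2 qX3 using fun u => q2_ok FW FU iW iU (lX u)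
  choose QE qE1 qE2 qE3 using fun u => q2_ok FW FU iW iU (lE u)
  choose QF qF1 qF2 qF3 using fun u => q2_ok FW FU iW iU (lF u)
  have x1 : ∀ u, ((lv (X.Q.q (q2 C) VM.v) u : ℕ) : ℤ) = pz BB 27 (qd (QM u)) := fun u => by
    rw [H.Q.q]
    exact qM1 u
  have y1 : ∀ u, ((lv (X.Q.q (q2 C) VA'.v) u : ℕ) : ℤ) = pz BB 27 (qd (QX u)) := fun u => by
    rw [H.Q.q]
    exact qX1 u
  have x2 : ∀ u, ((lv (X.Q.q (q2 C) VE.v) u : ℕ) : ℤ) = pz BB 27 (qd (QE u)) := fun u => by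
    rw [H.Q.q]
    exact qE1 u
  have y2 : ∀ u, ((lv (X.Q.q (q2 C) VF.v) u : ℕ) : ℤ) = pz BB 27 (qd (QF u)) := fun u => by
    rw [H.Q.q]
    exact qF1 u
  generalize X.Q.q (q2 C) VM.v = x at h9 x1
  generalize X.Q.q (q2 C) VA'.v = y at h9 y1
  generalize X.Q.q (q2 C) VE.v = xe at h9 x2
  generalize X.Q.q (q2 C) VF.v = xf at h9 y2
  -- the controls
  obtain ⟨c, c1, c2, c3, cM, cX⟩ := ctl_ok H.T hD x1 y1 qM3 qX3
  obtain ⟨c', c1', c2', c3', cE, cF⟩ := ctl_ok H.T hD x2 y2 qE3 qF3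
  set z := X.T.cn (X.T.zc x y) with hz
  set w := X.T.cn (X.T.zc xe xf) with hw
  set p0 := pmo (absd HZ LZ (X.T.ld z) (Nat.shiftLeft OQ2 D)) with hp0
  set l := pmL (X.T.dl HZ LZ z) with hl
  set q0 := pmo (absd HZ LZ (X.T.ld w) (Nat.shiftLeft OQ2 D)) with hq0
  set m := pmL (X.T.dl HZ LZ w) with hm
  set rM := rW (mkMa te.fr) (rU (toM VM.r) (mkMa fu)) with hrM
  set rX := rW (mkMa te.fr) (rU (toM VA'.r) (mkMa fu)) with hrX
  set rE := rW (mkMa te.fr) (rU (toM VE.r) (mkMa fu)) with hrE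
  set rF := rW (mkMa te.fr) (rU (toM VF.r) (mkMa fu)) with hrF
  set S := mkSc te.pq te.cs (fmJ Lc1 (bsU Lc1 (frU fu))) (fmJ Lc3 (bsW Lc3 (frW te.fr))) with hS
  set Mr := mkWM D p0 l rM with hMr
  set Xr := w9E (mkWX D p0 l rX) (mkWM D q0 m rE) (mkWX D q0 m rF) with hXr
  set R := mkR (72 + 2 * D) Mr Xr (sW Mr) (sW Xr) with hR
  have h13 : andB (andB (okB (Nat.shiftLeft 18014398509481984 D) Mr)
    (okB (Nat.shiftLeft 18014398509481984 D) Xr)) (andB (okR R)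
    (t5 X.T (Nat.shiftRight OFN D) (tfY (pkR R)) (X.T.nn (ndN (4 - D) S) kA kB x y))) = true := h9
  clear h9
  obtain ⟨h14, h15⟩ := andB2 h13
  obtain ⟨oM, oX⟩ := andB2 h14
  obtain ⟨oR, T5⟩ := andB2 h15
  clear h13 h14 h15
  -- the rows
  have rowG : ∀ {c : Vt D → ℕ → ℕ} {z : ν}, (∀ u, lv z u = pk (2 ^ 128) 54 (c u)) →
      (∀ u, ∀ k < 54, c u k < 2 ^ 123) → (∀ u, ∀ k < 54, k % 3 = 2 → c u k = 0) →
      ∀ {Q : Vt D → VA} {n : Vt D → ℕ → Fin 2 → ℤ} {V : NV μ} {Y : Mt} {s : ℕ},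
      (∀ K < 9, s + K < 18) →
      (∀ u, ∀ K < 9, (⟨(c u (3 * (s + K)) : ℝ), (c u (3 * (s + K) + 1) : ℝ)⟩ : ℂ) =
        cnI D (fun w => ev K (Q w)) u + ⟨2 ^ (100 + D), 2 ^ (100 + D)⟩) →
      (∀ K < 9, ‖(2 ^ 28 / 2 ^ k : ℂ) * en Y (K / 3) (K % 3) - avg (ndw D t) (fun u =>
        (⟨((n u K 0 : ℤ) : ℝ), ((n u K 1 : ℤ) : ℝ)⟩ : ℂ))‖ ≤ (V.r.at K : ℝ)) →
      (∀ u, ∀ K < 9, ev K (Q u) = ∑ k ∈ range 9, ef (k / 3) (K / 3) (AI te.fr) *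
        ef (k % 3) (K % 3) (AI fu) * ⟨((n u k 0 : ℤ) : ℝ), ((n u k 1 : ℤ) : ℝ)⟩) →
      ∀ K < 9, RwL D t (fun u => ev K (Q u))
        (mwu (mI (AI te.fr)) (mI (AI fu)) ((2 ^ 28 / 2 ^ k : ℂ) • Y) K)
        (mkRw (384 * (s + K)) (384 * (s + K) + 6912)
          (pmo (absd HZ LZ (X.T.ld z) (Nat.shiftLeft OQ2 D)))
          ((rW (mkMa te.fr) (rU (toM V.r) (mkMa fu))).at K * 2 ^ D) (pmL (X.T.dl HZ LZ z))) := by
    intro c z c1 c2 c3 Q n V Y s hs cM bM qM2 K hK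
    refine row_ok HD hD c1 c2 c3 (H.T.ld z) (hs K hK) (fun u => cM u K hK) ?_
    have a := vec_err (mkMa_le te.fr) (mkMa_le fu) (M := (2 ^ 28 / 2 ^ k : ℂ) • Y) (n := n)
      (r := V.r.at) bM (Q := Q) hK (fun u => qM2 u K hK)
    rw [rWU_at _ _ _ K hK]
    have e : ∑ k ∈ range 9, (mkMa te.fr).at (3 * (k / 3) + K / 3) * (mkMa fu).at (3 * (k % 3) + K % 3) *
        (toM V.r).at k = ∑ k ∈ range 9, (mkMa te.fr).at (3 * (k / 3) + K / 3) *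
        (mkMa fu).at (3 * (k % 3) + K % 3) * V.r.at k :=
      sum_congr rfl fun i hi => by rw [toM_at _ i (mem_range.1 hi)]
    rw [e]
    exact a
  have s0 : ∀ K < 9, 0 + K < 18 := fun K hK => by omega
  have s9 : ∀ K < 9, 9 + K < 18 := fun K hK => by omega
  have c0 : ∀ {c : Vt D → ℕ → ℕ} {Q : Vt D → VA}, (∀ u, ∀ K < 9,
      (⟨(c u (3 * K) : ℝ), (c u (3 * K + 1) : ℝ)⟩ : ℂ) =
        cnI D (fun w => ev K (Q w)) u + ⟨2 ^ (100 + D), 2 ^ (100 + D)⟩) → ∀ u, ∀ K < 9,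
      (⟨(c u (3 * (0 + K)) : ℝ), (c u (3 * (0 + K) + 1) : ℝ)⟩ : ℂ) =
        cnI D (fun w => ev K (Q w)) u + ⟨2 ^ (100 + D), 2 ^ (100 + D)⟩ := by
    intro c Q h u K hK
    rw [Nat.zero_add]
    exact h u K hK
  have c9 : ∀ {c : Vt D → ℕ → ℕ} {Q : Vt D → VA}, (∀ u, ∀ K < 9,
      (⟨(c u (3 * (K + 9)) : ℝ), (c u (3 * (K + 9) + 1) : ℝ)⟩ : ℂ) =
        cnI D (fun w => ev K (Q w)) u + ⟨2 ^ (100 + D), 2 ^ (100 + D)⟩) → ∀ u, ∀ K < 9,
      (⟨(c u (3 * (9 + K)) : ℝ), (c u (3 * (9 + K) + 1) : ℝ)⟩ : ℂ) =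
        cnI D (fun w => ev K (Q w)) u + ⟨2 ^ (100 + D), 2 ^ (100 + D)⟩ := by
    intro c Q h u K hK
    rw [Nat.add_comm 9 K]
    exact h u K hK
  have rowM : ∀ K < 9, RwL D t (fun u => ev K (QM u))
      (mwu (mI (AI te.fr)) (mI (AI fu)) ((2 ^ 28 / 2 ^ k : ℂ) • M) K) (Mr.at K) := fun K hK => by
    rw [hMr, mkWM_at _ _ _ _ K hK]
    have a := rowG c1 c2 c3 (s := 0) s0 (c0 cM) bM qM2 K hK
    rw [Nat.zero_add] at a
    exact a
  have rowE : ∀ K < 9, RwL D t (fun u => ev K (QE u))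
      (mwu (mI (AI te.fr)) (mI (AI fu)) ((2 ^ 28 / 2 ^ k : ℂ) • E) K)
      ((mkWM D q0 m rE).at K) := fun K hK => by
    rw [mkWM_at _ _ _ _ K hK]
    have a := rowG c1' c2' c3' (s := 0) s0 (c0 cE) bE qE2 K hK
    rw [Nat.zero_add] at a
    exact a
  have rowA : ∀ K < 9, RwL D t (fun u => ev K (QX u))
      (mwu (mI (AI te.fr)) (mI (AI fu)) ((2 ^ 28 / 2 ^ k : ℂ) • A) K)
      ((mkWX D p0 l rX).at K) := fun K hK => by
    rw [mkWX_at _ _ _ _ K hK]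
    have a := rowG c1 c2 c3 (s := 9) s9 (c9 cX) bX qX2 K hK
    rw [Nat.add_comm 9 K] at a
    exact a
  have rowF : ∀ K < 9, RwL D t (fun u => ev K (QF u))
      (mwu (mI (AI te.fr)) (mI (AI fu)) ((2 ^ 28 / 2 ^ k : ℂ) • F) K)
      ((mkWX D q0 m rF).at K) := fun K hK => by
    rw [mkWX_at _ _ _ _ K hK]
    have a := rowG c1' c2' c3' (s := 9) s9 (c9 cF) bF qF2 K hK
    rw [Nat.add_comm 9 K] at a
    exact a
  have rowX : ∀ K < 9, RwL D t (fun u => ev K (QX u))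
      (mwu (mI (AI te.fr)) (mI (AI fu)) ((2 ^ 28 / 2 ^ k : ℂ) • (A + d1 • E + d2 • F)) K)
      (Xr.at K) := fun K hK => by
    rw [hXr, w9E_at _ _ _ K hK, mwu_E]
    exact RwL_E hP (rowA K hK) (rowE K hK) (rowF K hK) hd1 hd2
  have hRs := fun K hK => mkR_ok (s := 72 + 2 * D) (M := Mr) (A := Xr)
    (fun K hK => (rowM K hK).len) (fun K hK => (rowX K hK).len) K hK
  -- bounds of the node values
  have sh54 : Nat.shiftLeft 18014398509481984 D = 2 ^ 54 * 2 ^ D := Nat.shiftLeft_eq _ _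
  rw [sh54] at oM oX
  have mM : ∀ u, ∀ K < 9, ∀ e, |QM u K e| ≤ 2 ^ 54 := fun u K hK e =>
    (comp_le (bnd_ok ((rowM K hK).node u) (okB_ok oM K hK)) e).trans c54.le
  have mX : ∀ u, ∀ K < 9, ∀ e, |QX u K e| ≤ 2 ^ 54 := fun u K hK e =>
    (comp_le (bnd_ok ((rowX K hK).node u) (okB_ok oX K hK)) e).trans c54.le
  -- the forms
  obtain ⟨T1, t1a, t1b⟩ := kNd_leaf (kE Lc1 (bsU Lc1 (frU fu))) k1
  obtain ⟨T2, t2a, t2b⟩ := kNd_leaf (kE Lc3 (bsW Lc3 (frW te.fr))) k2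
  choose YA a1 a2 a3 using fun u => kU_ok fu (T1 u)
  choose YB b1 b2 b3 using fun u => kW_ok te.fr (T2 u)
  obtain ⟨Ju, ju1, ju2, ju3⟩ := jU_ok fu
  obtain ⟨Jw, jw1, jw2, jw3⟩ := jW_ok te.fr
  have a4 := r52_U rA (Y := YA) (fun u => by rw [t1a]; exact a1 u) a3
  have b4 := r52_W rB (Y := YB) (fun u => by rw [t2a]; exact b1 u) b3
  have sBd : ∀ u, Bc (2 ^ 125) (sV te.pq te.cs (YA (rr u)) (YB (rr u)) Ju Jw) := fun u =>
    sV_bd (a := sm9 (mkMa fu)) (b := sm9 (mkMa te.fr)) (ble_le e0) (ble_le e8) (okX_ok e16)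
      (okX_ok e24) (a4 (rr u)) (b4 (rr u))
      (fun i hi j hj e => by exact_mod_cast compF_le (ju3 i hi j hj) e)
      (fun i hi j hj e => by exact_mod_cast compF_le (jw3 i hi j hj) e)
  refine final_ok (pq := te.pq) (cs := te.cs) hD hP hrr (t1b t) (t2b t) a2 b2 ju2 jw2 rowM rowX hRs
    (fun v => ?_) s1 s2 s3 s4
  rw [pkR_eq] at T5
  refine t5_ok H.T hD (F := fun u => (2 ^ (4 - D) : ℤ) • mw (QM u) (QX u) -
    sV te.pq te.cs (YA (rr u)) (YB (rr u)) Ju Jw) (fun u => ?_) (fun u => ?_) (okR_ok oR) T5 hP v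
  · rw [H.T.nn]
    refine ndN_ok (Nat.sub_le _ _) (x1 u) (y1 u) (qM3 u) (qX3 u) ?_ ?_ ju1 jw1
    · rw [t1a]
      exact a1 (rr u)
    · rw [t2a]
      exact b1 (rr u)
  · exact N_bd (Nat.sub_le _ _) (mM u) (mX u) (sBd u)

/-- THE TEST OF A BLOCK OF MODELS with two disc matrices -/
theorem tBkE_ok {α ν μ ζ : Type} {D : ℕ} {lC : α → Vt D → Cx} {lv : ν → Vt D → ℕ}
    {lz : ζ → Vt D → Z} {lm : μ → Vt D → NL} {rr : Vt D → Vt 3} {X : Mn α ν μ ζ}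
    (H : MnL D lC lv lz lm rr X) (HD : DlL D lv X.T) (hD : D ≤ 4) {lf : α → Vt D → ℂ}
    (hc : ∀ x v, cz (lC x v) = lf x v) {t : ℕ → ℝ} (hP : PT D t)
    (hrr : ∀ G : Vt 3 → ℂ, avg (ndw D t) (fun u => G (rr u)) = avg (ndw 3 t) G)
    {M A E F : Mt} {VM VA' VE VF : V9 α} (hM : TV D lf t M VM) (hA : TV D lf t A VA')
    (hE : TV D lf t E VE) (hF : TV D lf t F VF) {d1 d2 : ℂ} (hd1 : ‖d1‖ ≤ 1)
    (hd2 : ‖d2‖ ≤ 1) {k1 k2 : Kf}
    {te : Te} (h : tBkE X tfY VM VA' VE VF k1 k2 te = true) :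
    NT (KfM k1 t) (KfM k2 t) (A + d1 • E + d2 • F) M := by
  have h' : andB (Nat.ble (u8 te.cs 32) 20) (tBE X tfY (mkNV X (u8 te.cs 32) VM)
    (mkNV X (u8 te.cs 32) VA') (mkNV X (u8 te.cs 32) VE) (mkNV X (u8 te.cs 32) VF) k1 k2 te) =
      true := h
  obtain ⟨h1, h2⟩ := andB2 h'
  exact tBE_ok H HD hD hP hrr (mkNV_ok H hc hP (ble_le h1) hM) (mkNV_ok H hc hP (ble_le h1) hA)
    (mkNV_ok H hc hP (ble_le h1) hE) (mkNV_ok H hc hP (ble_le h1) hF) hd1 hd2 h2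

end Pool.Agent.Helper12.TE
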