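import Pool.Agent.Helper12.TE.A
import Pool.Agent.Helper62.TM.NBX

/-!
MP_c75db0, Plan W: THE TAIL OF THE RUNS OF A ROTATION WITH DISC MATRICES, for any machine: the
records of the tests with two disc matrices and the pieces of the tail (kind `7`).
-/

set_option autoImplicit false
noncomputable section
namespace Pool.Agent.Helper12.TE

open Matrix
open Pool.Agent.Helper90.KMO (UU UU_pos UUc_ne cz zv zv_p andB_t)
open Pool.Agent.Helper90.KMT (PT)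
open Pool.Agent.Helper86.C75 (Z)
open Pool.Agent.Helper86.CX (Cx andB)
open Pool.Agent.Helper86.CT (N3 Alg Mo KM mk cst addM subM mulM conjM invM invOK nx)
open Pool.Agent.Helper17.K9 (V9)
open Pool.Agent.Helper62.TVM (cstC zeM negM hfM V3m cstV addV subV negV smV mulV oV)
open Pool.Agent.Helper62.NBM (SN ND dbM)
open Pool.Agent.Helper62.NBD (BP GB)
open Pool.Agent.Helper62.NBV
open Pool.Agent.Helper62.NBW (nth nth_t pcB ggM adK zB zB_cz IzB_cz z_sq pc_z pc_a mu_norm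
  nu_norm mu_ne)
open Pool.Agent.Helper26.XH (FH hL hR hH)
open Pool.Agent.Helper26.IT (upK)
open Pool.Agent.Helper51.FR (andB_t')
open Pool.Agent.Helper91.BX (crM upM upV tu)
open Pool.Agent.Helper91.TMK
open Pool.Agent.Helper91.TMK.XH (HOK)
open Pool.Agent.Helper91.TMK.FR (cst_nat)
open Pool.Agent.Helper91.TMK.IT (nA)
open Pool.Agent.Helper91.TMK.TST
open Pool.Agent.Helper91.TMK.SW
open Pool.Agent.Helper91.TMK.NBW
open Pool.Agent.Helper6.MONO (V3)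
open Pool.Agent.Helper6.MONO.W2 (Mt J1 NT NZ IN rfJ rfd nX nMd Sy sDm phi brJ SPC chS chC chD
  chR chO chQ chR_pos chO_mul chO_le chQ_norm)
open Pool.Agent.Helper21.SW (cK lf4)

/-- numbers with four parameters -/
abbrev Q4 : Type := Pool.Agent.Helper21.SW.T4

variable {α κ γ : Type}

/-! ### records -/

/-- THE LAW of a test with two disc matrices -/
def DFL (KV : κ → (ℕ → ℝ) → Mt) (T : κ → κ → γ → V9 Q4 → V9 Q4 → V9 Q4 → V9 Q4 → Bool) : Prop :=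
  ∀ {k1 k2 : κ} {g : γ} {M X E F : V9 Q4} {t : ℕ → ℝ} {Mr Xr Er Fr : Mt} {d1 d2 : ℂ},
    T k1 k2 g M X E F = true → PT 4 t → Pool.Agent.Helper62.TVM.TV 4 lf4 t Mr M →
    Pool.Agent.Helper62.TVM.TV 4 lf4 t Xr X → Pool.Agent.Helper62.TVM.TV 4 lf4 t Er E →
    Pool.Agent.Helper62.TVM.TV 4 lf4 t Fr F → ‖d1‖ ≤ 1 → ‖d2‖ ≤ 1 →
    NT (KV k1 t) (KV k2 t) (Xr + d1 • Er + d2 • Fr) Mr

/-- kernel side: test of the disc matrices, their conversion, the test -/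
structure TD (α κ γ : Type) where
  ok : V9 (N3 α) → Bool
  cv : V9 (N3 α) → V9 Q4
  t : κ → κ → γ → V9 (N3 α) → V9 (N3 α) → V9 Q4 → V9 Q4 → Bool

/-- THE LAW -/
structure TDL (lq : Mch (N3 α)) (KV : κ → (ℕ → ℝ) → Mt) (T : TD α κ γ) : Prop where
  t : ∀ {k1 k2 : κ} {g : γ} {M X E F : V9 (N3 α)} {t : ℕ → ℝ} {Mr Xr Er Fr : Mt} {d1 d2 : ℂ},
    T.ok E = true → T.ok F = true → T.t k1 k2 g M X (T.cv E) (T.cv F) = true → PT 4 t →
    TV 4 lq t Mr M → TV 4 lq t Xr X → TV 4 lq t Er E → TV 4 lq t Fr F → ‖d1‖ ≤ 1 → ‖d2‖ ≤ 1 →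
    NT (KV k1 t) (KV k2 t) (Xr + d1 • Er + d2 • Fr) Mr

/-- the test after a conversion -/
def tdV (M : Mn α) (A4 : Alg Q4) (T : κ → κ → γ → V9 Q4 → V9 Q4 → V9 Q4 → V9 Q4 → Bool) :
    TD α κ γ where
  ok := okV M.V4
  cv := cvV M.V4 A4
  t k1 k2 g N X E F := andB (okV M.V4 N) (andB (okV M.V4 X)
    (T k1 k2 g (cvV M.V4 A4 N) (cvV M.V4 A4 X) E F))

theorem tdV_ok {M : Mn α} {lq : Mch (N3 α)} (hV4 : CvtL 4 lq lf4 M.V4) {A4 : Alg Q4}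
    (h4 : Pool.Agent.Helper90.KMT.AOK 4 lf4 A4) {KV : κ → (ℕ → ℝ) → Mt}
    {T : κ → κ → γ → V9 Q4 → V9 Q4 → V9 Q4 → V9 Q4 → Bool} (hT : DFL KV T) :
    TDL lq KV (tdV M A4 T) where
  t := fun oE oF h hP hM hX hE hF e1 e2 => by
    obtain ⟨o1, h⟩ := andB_t h
    obtain ⟨o2, h⟩ := andB_t h
    exact hT h hP (TV_cv h4 hV4 hP hM o1) (TV_cv h4 hV4 hP hX o2) (TV_cv h4 hV4 hP hE oE)
      (TV_cv h4 hV4 hP hF oF) e1 e2

/-! ### kernel side -/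

/-- four tests with discs -/
def q4E (A : Alg α) (T : TD α κ γ) (k1 k2 : κ) (gs : List γ) (n : Nat)
    (M U V X : V9 (N3 α)) (E F : V9 Q4) : Bool :=
  andB (andB (nth gs (fun g => T.t k1 k2 g (addV (nx A) M U) X E F) n)
      (nth gs (fun g => T.t k1 k2 g (addV (nx A) M V) X E F) (Nat.add n (nat_lit 1))))
    (andB (nth gs (fun g => T.t k1 k2 g (subV (nx A) M U) X E F) (Nat.add n (nat_lit 2)))
      (nth gs (fun g => T.t k1 k2 g (subV (nx A) M V) X E F) (Nat.add n (nat_lit 3))))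

/-- sixteen tests: first direction at the ends, second direction at the ends -/
def btG (A : Alg α) (T : TK α κ γ) (D : TD α κ γ) (k1 k2 : κ) (gs : List γ)
    (M U V A1 A2 B1 B2 G : V9 (N3 α)) (E F : V9 Q4) : Bool :=
  andB (andB (q4T A T k1 k2 gs (nat_lit 0) M U V A1) (q4T A T k1 k2 gs (nat_lit 4) M U V A2))
    (andB (q4E A D k1 k2 gs (nat_lit 8) M U V (addV (nx A) B1 G) E F)
      (q4E A D k1 k2 gs (nat_lit 12) M U V (addV (nx A) B2 G) E F))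
def btH (A : Alg α) (T : TK α κ γ) (D : TD α κ γ) (k1 k2 : κ) (gs : List γ)
    (M U V A1 A2 B1 B2 G E F : V9 (N3 α)) : Bool :=
  andB (andB (D.ok E) (D.ok F)) (btG A T D k1 k2 gs M U V A1 A2 B1 B2 G (D.cv E) (D.cv F))

/-- `r (h h' C + r (N' - r Q'))` -/
def bcM (A : Alg α) (K : LC α) (r : Mo (N3 α)) : V9 (N3 α) :=
  smV (nx A) r (addV (nx A) (upV (smV A (mulM A K.s.h K.s.hd) K.C))
    (smV (nx A) r (subV (nx A) (upV K.Nd) (smV (nx A) r (upV K.Qd)))))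
/-- `c Q' + gg (c Q)` -/
def dEM (A : Alg α) (K : LC α) (L R : V9 (N3 α)) (c : Mo (N3 α)) : V9 (N3 α) :=
  addV (nx A) (smV (nx A) c (upV K.Qd)) (ggM (nx A) (smV (nx A) c (upV K.Q)) L R)
/-- the factors: `r² de`, `r² et (- 3 i θ')` -/
def ceM (A : Alg α) (b : BP) (r2 : Mo (N3 α)) : Mo (N3 α) :=
  mulM (nx A) r2 (upM (cst A b.de (nat_lit 0)))
def cfM (A : Alg α) (K : LC α) (b : BP) (r2 : Mo (N3 α)) : Mo (N3 α) :=
  mulM (nx A) r2 (upM (mulM A (cst A b.et (nat_lit 0)) (m3M A K.s.it)))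

def btJ (A : Alg α) (T : TK α κ γ) (D : TD α κ γ) (K : LC α) (k1 k2 : κ) (gs : List γ) (b : BP)
    (r r2 : Mo (N3 α)) (M U V B L R : V9 (N3 α)) : Bool :=
  btH A T D k1 k2 gs M U V (aK A K b.ka) (aHi A K b r) (cbM A K (aK A K b.ka) B)
    (cbM A K (aHi A K b r) B) (ggM (nx A) (smV (nx A) r2 M) L R) (dEM A K L R (ceM A b r2))
    (smV (nx A) (cfM A K b r2) (upV K.Q))
def btD1 (A : Alg α) (T : TK α κ γ) (D : TD α κ γ) (F : FH α) (K : LC α) (k1 k2 : κ)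
    (Sl Sr : V9 α) (gs : List γ) (b : BP) (r r2 : Mo (N3 α)) (M U V : V9 (N3 α)) : Bool :=
  cond b.ex
    (andB (laB b) (bt1 A T F K k1 k2 Sl Sr gs b r r2 M U V (ttM A K b r) (bbM A K b r)))
    (btJ A T D K k1 k2 gs b r r2 M U V (bcM A K r) (upV Sl) (upV (r2M A F Sr)))
def btD0 (A : Alg α) (T : TK α κ γ) (D : TD α κ γ) (F : FH α) (K : LC α) (k1 k2 : κ)
    (Sl Sr : V9 α) (gs : List γ) (b : BP) (r : Mo (N3 α)) : Bool :=
  btD1 A T D F K k1 k2 Sl Sr gs b r (mulM (nx A) r r) (mM A K.N K.C r) (z0M A K.Q b)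
    (z1M A K.Q b)
/-- kind 7, a piece -/
def btD (A : Alg α) (T : TK α κ γ) (D : TD α κ γ) (F : FH α) (K : LC α) (bp : List BP) (i : Nat)
    (k1 k2 : κ) (Sl Sr : V9 α) (gs : List γ) : Bool :=
  nth bp (fun b => andB (pcB b) (btD0 A T D F K k1 k2 Sl Sr gs b (rrM A b))) i

/-! ### laws -/

theorem nth_of {β : Type} {f : β → Bool} : ∀ {l : List β} {n : ℕ} {x : β}, l[n]? = some x →
    nth l f n = f x
  | [], _, _, h => by simp at h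
  | y :: l, 0, x, h => by
    have e : y = x := by simpa using h
    rw [← e]
    rfl
  | y :: l, n + 1, x, h => by
    show nth l f n = f x
    exact nth_of (by simpa using h)

theorem disc_ex {c : ℝ} {ρ : ℂ} (h : ‖ρ‖ ≤ c) : ∃ d : ℂ, ‖d‖ ≤ 1 ∧ ρ = d * (c : ℂ) := by
  rcases lt_or_ge 0 c with h0 | h0
  · refine ⟨ρ / c, ?_, ?_⟩
    · rw [norm_div, Complex.norm_real, Real.norm_of_nonneg h0.le]
      exact (div_le_one h0).2 h
    · have : (c : ℂ) ≠ 0 := by exact_mod_cast h0.ne'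
      field_simp
  · refine ⟨0, by simp, ?_⟩
    have h1 : ‖ρ‖ ≤ 0 := h.trans h0
    have h2 : ρ = 0 := norm_le_zero_iff.1 h1
    rw [h2, zero_mul]

section
variable {lf : Mch α} {A : Alg α} {KV : κ → (ℕ → ℝ) → Mt} {t : ℕ → ℝ} {k1 k2 : κ}

theorem q4E_ok (hN : AOKn 2 3 lf A) {D : TD α κ γ} (hD : TDL (nM 3 lf) KV D)
    (hKV : ∀ {k : κ} {t : ℕ → ℝ} {u : ℝ}, KV k (tu 3 t u) = KV k t) {u : ℝ}
    (hP : PT 4 (tu 3 t u))
    {gs : List γ} {n : ℕ}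
    {M U V X E F : V9 (N3 α)} {Mr Ur Xr Er Fr : Mt} {z : ℂ} (hM : TV 4 (nM 3 lf) (tu 3 t u) Mr M)
    (hU : TV 4 (nM 3 lf) (tu 3 t u) (z • Ur) U)
    (hV : TV 4 (nM 3 lf) (tu 3 t u) ((Complex.I * z) • Ur) V)
    (hX : TV 4 (nM 3 lf) (tu 3 t u) Xr X) (hE : TV 4 (nM 3 lf) (tu 3 t u) Er E)
    (hF : TV 4 (nM 3 lf) (tu 3 t u) Fr F) (oE : D.ok E = true) (oF : D.ok F = true) {d1 d2 : ℂ}
    (e1 : ‖d1‖ ≤ 1) (e2 : ‖d2‖ ≤ 1)
    (h : q4E A D k1 k2 gs n M U V X (D.cv E) (D.cv F) = true) :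
    Pool.Agent.Helper62.NBV.T4 (KV k1 t) (KV k2 t) (Xr + d1 • Er + d2 • Fr) Mr Ur z := by
  have hB := AOK_nx hN
  obtain ⟨h1, h2⟩ := andB_t' h
  obtain ⟨h3, h4⟩ := andB_t' h1
  obtain ⟨h5, h6⟩ := andB_t' h2
  obtain ⟨g0, _, k0⟩ := nth_t h3
  obtain ⟨g1, _, k1'⟩ := nth_t h4
  obtain ⟨g2, _, k2'⟩ := nth_t h5
  obtain ⟨g3, _, k3⟩ := nth_t h6
  have m1 := hD.t oE oF k0 hP (hM.add hB hU) hX hE hF e1 e2
  have m2 := hD.t oE oF k1' hP (hM.add hB hV) hX hE hF e1 e2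
  have m3 := hD.t oE oF k2' hP (hM.sub hB hU) hX hE hF e1 e2
  have m4 := hD.t oE oF k3 hP (hM.sub hB hV) hX hE hF e1 e2
  rw [hKV, hKV] at m1 m2 m3 m4
  exact ⟨⟨m1, m2⟩, ⟨m3, m4⟩⟩

/-- the second direction with the discs separated -/
theorem bF_disc {r h hd dh c1 c2 : ℝ} {ρ η d1 d2 : ℂ} {X L R2 c Nc Qc Ndc Qdc : Mt}
    (e1 : ρ = d1 * (c1 : ℂ)) (e2 : η = d2 * (c2 : ℂ)) :
    X + bF r h hd dh ρ η L R2 c Nc Qc Ndc Qdc =
      ((X + (r : ℂ) • (((h * hd : ℝ) : ℂ) • (c - Qc) + (r : ℂ) • (Ndc - (r : ℂ) • Qdc))) +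
        ((((r : ℂ) * (r : ℂ)) • (Nc + (r : ℂ) • (c - Qc))) * L -
          R2 * (((r : ℂ) * (r : ℂ)) • (Nc + (r : ℂ) • (c - Qc))))) +
      d1 • ((((r : ℂ) * (r : ℂ)) * (c1 : ℂ)) • Qdc +
        (((((r : ℂ) * (r : ℂ)) * (c1 : ℂ)) • Qc) * L -
          R2 * ((((r : ℂ) * (r : ℂ)) * (c1 : ℂ)) • Qc))) +
      d2 • ((((r : ℂ) * (r : ℂ)) * ((c2 : ℂ) * (Complex.I * dh))) • Qc) := by
  rw [bF, bb, gg, tF, e1, e2]
  simp only [smul_add, smul_sub, smul_smul, add_mul, mul_add, sub_mul, mul_sub, smul_mul_assoc,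
    mul_smul_comm]
  push_cast
  module

end

section
variable {lf : Mch α} {A : Alg α} {T : TK α κ γ} {KV : κ → (ℕ → ℝ) → Mt} {t : ℕ → ℝ} {v vd : V3}
  {F : FH α} {k1 k2 : κ} {S S' : Mt} {Sl Sr : V9 α} {φ : ℝ} {g : Sy} {μ : ℂ} {th h hd : ℝ}
  {P N Pd Nd : Mt} {K : LC α} {I : LI α} {D : TD α κ γ}

/-- A PIECE OF THE TAIL -/
theorem btD_ok (hN : AOKn 2 3 lf A) (hT : TKL lf (nM 3 lf) KV T) (hD : TDL (nM 3 lf) KV D)
    (hP : PT 3 t)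
    (h2 : brJ 1 v v = 2) (h2' : (brJ 1 vd v).re = 0)
    (hF : HOK 3 lf t v vd F) (H : SPC (rfJ 1 v * sDm φ g.1 g.2) (rfd 1 0 v vd * sDm φ g.1 g.2) μ
      (-star μ ^ 2) th (-2 * th) h hd P N Pd Nd) (hμ : star μ * μ = 1) (hh : 1 ≤ h)
    (hd0 : 0 ≤ hd) (hK : TLC lf t v μ th h hd P N Pd Nd K) (hl : TV 3 lf t (hL v vd S) Sl)
    (hr : TV 3 lf t (hR v vd S') Sr) {bp : List BP} {i : ℕ} {gs : List γ}
    (hb : btD A T D F K bp i k1 k2 Sl Sr gs = true) {n : ℕ} (hn : bcT h bp i n) :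
    NT (cK v (KV k1 t)) (cK v (KV k2 t)) (nX v vd (nRM φ v g.1 g.2 (n - 1))
      (nMd φ v vd g.1 g.2 (n - 1)) S S') (nRM φ v g.1 g.2 (n - 1)) := by
  obtain ⟨b, hbi, hb1⟩ := nth_t hb
  obtain ⟨p1, p2⟩ := andB_t' hb1
  cases hex : b.ex with
  | true =>
    refine btK_ok hN hT hP h2 h2' hF H hμ hh hd0 hK hl hr (bp := bp) (i := i) (gs := gs) ?_ hn
    have p2' : btD1 A T D F K k1 k2 Sl Sr gs b (rrM A b) (mulM (nx A) (rrM A b) (rrM A b))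
        (mM A K.N K.C (rrM A b)) (z0M A K.Q b) (z1M A K.Q b) = true := p2
    unfold btD1 at p2'
    rw [hex] at p2'
    obtain ⟨p4, p3⟩ := andB_t' (show andB (laB b) (bt0 A T F K k1 k2 Sl Sr gs b (rrM A b)) = true
      from p2')
    unfold btK
    rw [nth_of hbi]
    show andB (andB (laB b) (pcB b)) (bt0 A T F K k1 k2 Sl Sr gs b (rrM A b)) = true
    rw [p1, p3, p4]
    rfl
  | false =>
    have hA3 := nA hN
    have a4 := AOK_nx hN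
    obtain ⟨b', hbi', c0, c1, c2, c3, hn2, _⟩ := hn
    have eb : b' = b := by rw [hbi] at hbi'; exact (Option.some.inj hbi').symm
    subst eb
    have hn1 : 1 ≤ n := by omega
    have hr0 := chR_pos hh hn1
    have hU : UU = 2 ^ 48 := by unfold UU; norm_num
    obtain ⟨u, h0, h1, hP4, hrm⟩ := cr_ex (τ := chR h n) (a := b'.t0) (b := b'.t1) hN hP
      (by norm_num) (by rw [← hU]; exact c0) (by rw [← hU]; exact c1)
    have hR : TOK 4 (nM 3 lf) (tu 3 t u) ((chR h n : ℝ) : ℂ) (rrM A b') := hrm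
    have nq := chQ_norm (mu_norm hμ) (nu_norm hμ) hh hn1
    have hρ : ‖chQ μ (-star μ ^ 2) h n‖ ≤ (b'.de : ℝ) / UU := by rw [nq]; exact c2
    have hη : ‖(n : ℂ) * chQ μ (-star μ ^ 2) h n‖ ≤ (b'.et : ℝ) / UU := by
      rw [norm_mul, nq, Complex.norm_natCast, mul_one_div]
      exact c3
    obtain ⟨d1, n1, q1'⟩ := disc_ex hρ
    obtain ⟨d2, n2, q2'⟩ := disc_ex hη
    have hz := pc_z p1 hρ
    have hM := TV_m hN hP4 hK.N hK.C hR
    have hz0 := TV_z0 (u := u) hN hP hK.Q b'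
    have hz1 := TV_z1 (u := u) hN hP hK.Q b'
    have h4 := TOK_h4 (u := u) hN hP hK
    have hL4 := TV.up hN hl u
    have hR4 := TV.up hN (TV_r2 hA3 hF hr) u
    have hr2 := hR.mul a4 hP4 hR
    have hom := chO_mul hh hn1
    have hole := chO_le hh hn1
    have hG : 0 ≤ h ^ 2 - 1 := by nlinarith
    have p2' : btD1 A T D F K k1 k2 Sl Sr gs b' (rrM A b') (mulM (nx A) (rrM A b') (rrM A b'))
      (mM A K.N K.C (rrM A b')) (z0M A K.Q b') (z1M A K.Q b') = true := p2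
    unfold btD1 at p2'
    rw [hex] at p2'
    obtain ⟨oo, q0⟩ := andB_t' (show btH _ _ _ _ _ _ _ _ _ _ _ _ _ _ _ _ = true from p2')
    obtain ⟨oE, oF⟩ := andB_t' oo
    obtain ⟨q1, q2⟩ := andB_t' (show btG _ _ _ _ _ _ _ _ _ _ _ _ _ _ _ _ = true from q0)
    obtain ⟨q3, q4⟩ := andB_t' q1
    obtain ⟨q5, q6⟩ := andB_t' q2
    obtain ⟨o1, o2⟩ := pc_a p1 hex hr0 c0 c1 hG hom hole
    have hA := TV_aK (u := u) hN hP hK b'.ka
    have hA2 := TV_aHi hN hP hP4 hK hR b'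
    -- the constant part
    have hhd : TOK 3 lf t ((h * hd : ℝ) : ℂ) (mulM A K.s.h K.s.hd) :=
      tc (hK.h.mul hA3 hP hK.hd) (by push_cast; ring)
    have hbc : TV 4 (nM 3 lf) (tu 3 t u) (((chR h n : ℝ) : ℂ) • (((h * hd : ℝ) : ℂ) •
        (rfJ 1 v - (1 - P) * rfJ 1 v) + ((chR h n : ℝ) : ℂ) • (Nd * rfJ 1 v -
          ((chR h n : ℝ) : ℂ) • (-Pd * rfJ 1 v)))) (bcM A K (rrM A b')) :=
      TV.smul a4 hP4 hR ((TV.up hN (TV.smul hA3 hP hhd hK.C) u).add a4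
        (TV.smul a4 hP4 hR ((TV.up hN hK.Nd u).sub a4
          (TV.smul a4 hP4 hR (TV.up hN hK.Qd u)))))
    have hg := ((TV.smul a4 hP4 hr2 hM).mul a4 hP4 hL4).sub a4
      (hR4.mul a4 hP4 (TV.smul a4 hP4 hr2 hM))
    -- the disc matrices
    have hde : TOK 3 lf t (((b'.de : ℝ) / UU : ℝ) : ℂ) (cst A b'.de (nat_lit 0)) :=
      tc (cst_nat hA3 hP b'.de) (by push_cast; ring)
    have hce : TOK 4 (nM 3 lf) (tu 3 t u) ((((chR h n : ℝ) : ℂ) * ((chR h n : ℝ) : ℂ)) *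
        (((b'.de : ℝ) / UU : ℝ) : ℂ)) (ceM A b' (mulM (nx A) (rrM A b') (rrM A b'))) :=
      hr2.mul a4 hP4 (TOK.up hN hde u)
    have het : TOK 3 lf t (((b'.et : ℝ) / UU : ℝ) : ℂ) (cst A b'.et (nat_lit 0)) :=
      tc (cst_nat hA3 hP b'.et) (by push_cast; ring)
    have h3 : TOK 3 lf t (Complex.I * ((-2 * th - th : ℝ) : ℂ)) (m3M A K.s.it) :=
      tc (TOK_neg hA3 hP (hK.it.add hA3 (TOK_db hA3 hK.it))) (by push_cast; ring)
    have hcf : TOK 4 (nM 3 lf) (tu 3 t u) ((((chR h n : ℝ) : ℂ) * ((chR h n : ℝ) : ℂ)) *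
        ((((b'.et : ℝ) / UU : ℝ) : ℂ) * (Complex.I * ((-2 * th - th : ℝ) : ℂ))))
        (cfM A K b' (mulM (nx A) (rrM A b') (rrM A b'))) :=
      hr2.mul a4 hP4 (TOK.up hN (het.mul hA3 hP h3) u)
    have hQ4 := TV.up hN hK.Q u
    have hcq := TV.smul a4 hP4 hce hQ4
    have hE := (TV.smul a4 hP4 hce (TV.up hN hK.Qd u)).add a4
      ((hcq.mul a4 hP4 hL4).sub a4 (hR4.mul a4 hP4 hcq))
    have hFF := TV.smul a4 hP4 hcf hQ4
    have A1 := q4T_ok hN hT hP4 hM hz0 hz1 hA q3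
    have A2 := q4T_ok hN hT hP4 hM hz0 hz1 hA2 q4
    have B1 := q4E_ok hN hD hT.up hP4 hM hz0 hz1 (((TV.smul a4 hP4 h4 hA).add a4 hbc).add a4 hg)
      hE hFF oE oF n1 n2 q5
    have B2 := q4E_ok hN hD hT.up hP4 hM hz0 hz1 (((TV.smul a4 hP4 h4 hA2).add a4 hbc).add a4 hg)
      hE hFF oE oF n1 n2 q6
    refine gi_tail H h2 h2' (mu_ne hμ) hh hd0 hn2 o1 o2 hz rfl rfl rfl rfl rfl A1 A2 ?_ ?_
    · rw [bF_disc q1' q2']
      exact B1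
    · rw [bF_disc q1' q2']
      exact B2

end

end Pool.Agent.Helper12.TE
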